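import Mathlib
import Pool.Agent.H23.SubB

set_option autoImplicit false

open Topology Filter

namespace Pool.Agent.Results.MP_9c76b4_al.NoSection

/-- Quasihomomorphisms `t : H → G` between topological groups. -/
def IsQuasihom {H G : Type} [Group H] [TopologicalSpace H] [Group G] [TopologicalSpace G]
    (t : H → G) : Prop :=
  t 1 = 1 ∧
  ContinuousAt (fun p : H × H => t p.1 * t p.2 * (t (p.1 * p.2))⁻¹) (1, 1) ∧
  ∀ y : H, ContinuousAt (fun h : H => t y * t h * (t y)⁻¹ * (t (y * h * y⁻¹))⁻¹) 1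

def VG (p : Finset ℝ × ℕ) : Subgroup (Multiplicative (ℝ → ℤ)) where
  carrier := {x | (∀ i, (2 : ℤ) ^ p.2 ∣ x.toAdd i) ∧ ∀ i ∈ p.1, (3 : ℤ) ∣ x.toAdd i}
  one_mem' := by simp
  mul_mem' := fun ha hb => ⟨fun i => dvd_add (ha.1 i) (hb.1 i),
    fun i hi => dvd_add (ha.2 i hi) (hb.2 i hi)⟩
  inv_mem' := fun ha => ⟨fun i => (dvd_neg).2 (ha.1 i), fun i hi => (dvd_neg).2 (ha.2 i hi)⟩

def VH (F : Finset ℝ) : Subgroup (Multiplicative (ℝ → ZMod 3)) where
  carrier := {x | ∀ i ∈ F, x.toAdd i = 0}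
  one_mem' := by simp
  mul_mem' := fun {a b} ha hb i hi => by
    show a.toAdd i + b.toAdd i = 0
    rw [ha i hi, hb i hi, add_zero]
  inv_mem' := fun {a} ha i hi => by
    show -a.toAdd i = 0
    rw [ha i hi, neg_zero]

def ff : Multiplicative (ℝ → ℤ) →* Multiplicative (ℝ → ZMod 3) where
  toFun x := Multiplicative.ofAdd fun i => ((x.toAdd i : ℤ) : ZMod 3)
  map_one' := by ext; simp
  map_mul' a b := by ext; simp

/-- There are Hausdorff (abelian) topological groups `G`, `H` and an open continuous surjective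
homomorphism `f : G → H` such that no section of `f` is a quasihomomorphism. -/
theorem result :
    ∃ (G H : Type) (_ : Group G) (_ : TopologicalSpace G) (_ : Group H) (_ : TopologicalSpace H)
      (f : G →* H), IsTopologicalGroup G ∧ IsTopologicalGroup H ∧ T2Space G ∧ T2Space H ∧
      Continuous f ∧ IsOpenMap f ∧ Function.Surjective f ∧
      ∀ s : H → G, (∀ h, f (s h) = h) → ¬ IsQuasihom s := by
  classical
  obtain ⟨tG, gG, nG⟩ := Pool.Agent.H23.SubB.sb VG
    (fun p q => ⟨(p.1 ∪ q.1, p.2 + q.2),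
      fun x hx => ⟨fun i => (pow_dvd_pow _ (by simp)).trans (hx.1 i),
        fun i hi => hx.2 i (by simp [hi])⟩,
      fun x hx => ⟨fun i => (pow_dvd_pow _ (by simp)).trans (hx.1 i),
        fun i hi => hx.2 i (by simp [hi])⟩⟩)
    (fun g i => ⟨i, fun x hx => by rwa [mul_inv_cancel_comm]⟩)
  obtain ⟨tH, gH, nH⟩ := Pool.Agent.H23.SubB.sb VH
    (fun p q => ⟨p ∪ q, fun x hx i hi => hx i (by simp [hi]), fun x hx i hi => hx i (by simp [hi])⟩)
    (fun g i => ⟨i, fun x hx => by rwa [mul_inv_cancel_comm]⟩)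
  have lift : ∀ (n : ℕ) (a : ZMod 3), ∃ m : ℤ, (2 : ℤ) ^ n ∣ m ∧ (m : ZMod 3) = a := by
    intro n a
    refine ⟨2 ^ n * 2 ^ n * (a.val : ℤ), ⟨2 ^ n * a.val, by ring⟩, ?_⟩
    push_cast
    rw [← mul_pow, show (2 : ZMod 3) * 2 = 1 by decide]
    simp
  refine ⟨_, _, inferInstance, tG, inferInstance, tH, ff, gG, gH, ?_, ?_, ?_, ?_, ?_, ?_⟩
  · refine IsTopologicalGroup.t2Space_of_one_sep fun x hx => ?_
    obtain ⟨i, hi⟩ : ∃ i, x.toAdd i ≠ 0 := by
      by_contra h
      push Not at h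
      exact hx (by ext i; exact h i)
    refine ⟨_, (nG _).2 ⟨(∅, (x.toAdd i).natAbs), subset_rfl⟩, fun h => ?_⟩
    have h1 := Int.natAbs_dvd_natAbs.2 (h.1 i)
    have h2 := Nat.le_of_dvd (Int.natAbs_pos.2 hi) h1
    rw [Int.natAbs_pow] at h2
    exact absurd h2 (not_le.2 (Nat.lt_two_pow_self))
  · refine IsTopologicalGroup.t2Space_of_one_sep fun x hx => ?_
    obtain ⟨i, hi⟩ : ∃ i, x.toAdd i ≠ 0 := by
      by_contra h
      push Not at h
      exact hx (by ext i; exact h i)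
    exact ⟨_, (nH _).2 ⟨{i}, subset_rfl⟩, fun h => hi (h i (by simp))⟩
  · apply continuous_of_continuousAt_one
    intro U hU
    rw [map_one] at hU
    obtain ⟨F, hF⟩ := (nH U).1 hU
    refine (nG _).2 ⟨(F, 0), fun x hx => hF fun i hi => ?_⟩
    exact (ZMod.intCast_zmod_eq_zero_iff_dvd _ 3).2 (hx.2 i hi)
  · rw [IsTopologicalGroup.isOpenMap_iff_nhds_one]
    intro U hU
    obtain ⟨p, hp⟩ := (nG _).1 hU
    refine (nH _).2 ⟨p.1, fun h hh => ?_⟩
    choose m hm using lift p.2
    have : ff (Multiplicative.ofAdd fun i => m (h.toAdd i)) = h := by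
      ext i; exact (hm _).2
    rw [← this]
    refine hp ⟨fun i => (hm _).1, fun i hi => ?_⟩
    apply (ZMod.intCast_zmod_eq_zero_iff_dvd _ 3).1
    exact (hm _).2.trans (hh i hi)
  · intro h
    choose m hm using lift 0
    exact ⟨Multiplicative.ofAdd fun i => m (h.toAdd i), by ext i; exact (hm _).2⟩
  · rintro s hs ⟨h1, h2, -⟩
    have h3 : ∀ n : ℕ, ∃ F : Finset ℝ, ∀ a ∈ VH F, ∀ b ∈ VH F,
        s a * s b * (s (a * b))⁻¹ ∈ VG (∅, n) := by
      intro n
      have := h2 (show (VG (∅, n) : Set _) ∈ _ from by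
        simp only [h1, mul_one, inv_one]
        exact (nG _).2 ⟨_, subset_rfl⟩)
      rw [mem_map, mem_nhds_prod_iff] at this
      obtain ⟨U, hU, V, hV, h⟩ := this
      obtain ⟨F1, hF1⟩ := (nH U).1 hU
      obtain ⟨F2, hF2⟩ := (nH V).1 hV
      exact ⟨F1 ∪ F2, fun a ha b hb => h (Set.mk_mem_prod (hF1 fun i hi => ha i (by simp [hi]))
        (hF2 fun i hi => hb i (by simp [hi])))⟩
    choose F hF using h3
    obtain ⟨i, hi⟩ : ∃ i : ℝ, ∀ n, i ∉ F n := by
      by_contra h
      push Not at h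
      have hc : (⋃ n, (F n : Set ℝ)).Countable := Set.countable_iUnion fun n => (F n).countable_toSet
      have : (⋃ n, (F n : Set ℝ)) = Set.univ := Set.eq_univ_of_forall fun i => by simpa using h i
      rw [this] at hc
      exact Cardinal.not_countable_real hc
    let e : ZMod 3 → Multiplicative (ℝ → ZMod 3) := fun a => Multiplicative.ofAdd (Pi.single i a)
    have he : ∀ n a, e a ∈ VH (F n) := fun n a j hj =>
      Pi.single_eq_of_ne (M := fun _ : ℝ => ZMod 3) (fun h : j = i => hi n (h ▸ hj)) a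
    have hm : ∀ a b, e a * e b = e (a + b) := fun a b => by
      simp only [e, Pi.single_add]; rfl
    let g : ZMod 3 → ℤ := fun a => (s (e a)).toAdd i
    have hg : ∀ a b, g a + g b - g (a + b) = 0 := by
      intro a b
      by_contra hne
      have h1 := (hF (g a + g b - g (a + b)).natAbs _ (he _ a) _ (he _ b)).1 i
      rw [hm] at h1
      have h1' : (2 : ℤ) ^ (g a + g b - g (a + b)).natAbs ∣ g a + g b - g (a + b) := by
        rw [sub_eq_add_neg (g a + g b)] at h1 ⊢
        exact h1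
      have h2 := Nat.le_of_dvd (Int.natAbs_pos.2 hne) (Int.natAbs_dvd_natAbs.2 h1')
      rw [Int.natAbs_pow] at h2
      exact absurd h2 (not_le.2 (Nat.lt_two_pow_self))
    have a1 := hg 0 0
    have a2 := hg 1 1
    have a3 := hg 1 (1 + 1)
    rw [add_zero] at a1
    rw [show (1 : ZMod 3) + (1 + 1) = 0 by decide] at a3
    have a4 : g 1 = 0 := by omega
    have a5 : ((g 1 : ℤ) : ZMod 3) = 1 := by
      have := congrFun (congrArg Multiplicative.toAdd (hs (e 1))) i
      exact this.trans (Pi.single_eq_same i 1)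
    rw [a4] at a5
    exact absurd a5 (by decide)

end Pool.Agent.Results.MP_9c76b4_al.NoSection
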